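import Mathlib
import Pool.Agent.Helper15.GT.Hom
import Pool.Agent.Helper17.FF.Homog

/-!
# NT, block T1: the embedding given by a point of a projective model of a curve
-/

set_option linter.unusedSectionVars false

namespace Pool.Agent.Helper70.NT

open VC _root_.VF Function Polynomial Pool.Agent.Helper21.TO Pool.Agent.Helper15.GT

universe u

variable {k : Type u} [Field k] [IsAlgClosed k] [CharZero k] {M : Type u} [Field M] [Algebra k M]

/-- A homomorphism from a ring of dimension one with a value transcendental over `k` is injective. -/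
theorem hom_inj (hM : IsFunctionField k M) (A : Subalgebra k M) {K : Type u} [Field K] [Algebra k K]
    (χ : A →ₐ[k] K) (y : A) (hy : Transcendental k (χ y)) : Injective χ := by
  rw [injective_iff_map_eq_zero]
  intro z hz
  by_contra hz0
  have hyM : Transcendental k (y : M) := by
    intro h
    apply hy
    have h1 : IsAlgebraic k y := by
      obtain ⟨p, hp, hp'⟩ := h
      refine ⟨p, hp, ?_⟩
      apply Subtype.ext
      have h2 := Polynomial.aeval_algHom_apply A.val y p
      rw [← show A.val (Polynomial.aeval y p) = ((Polynomial.aeval y p : A) : M) from rfl, ← h2]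
      exact hp'
    exact h1.algHom χ
  have hzM : (z : M) ≠ 0 := fun h => hz0 (Subtype.ext h)
  have h1 : IsAlgebraic (Algebra.adjoin k {(y : M)}) (z : M) :=
    IntermediateField.isAlgebraic_adjoin_iff.mp (FF.ff_isAlgebraic_adjoin hM hyM z)
  obtain ⟨q, hq0, hq⟩ := h1.exists_nonzero_coeff_and_aeval_eq_zero (mem_nonZeroDivisors_of_ne_zero hzM)
  have hle : Algebra.adjoin k {(y : M)} ≤ A := Algebra.adjoin_le (by
    rintro x hx
    rw [Set.mem_singleton_iff.mp hx]
    exact y.2)
  have hw : Polynomial.aeval (z : M) q.divX ∈ A := by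
    rw [Polynomial.aeval_eq_sum_range]
    refine sum_mem fun i _ => ?_
    rw [Algebra.smul_def]
    exact A.mul_mem (hle (q.divX.coeff i).2) (A.pow_mem z.2 i)
  have hr : ((q.coeff 0 : Algebra.adjoin k {(y : M)}) : M) = - ((z : M) * Polynomial.aeval (z : M) q.divX) := by
    have h2 := Polynomial.divX_mul_X_add q
    have h3 := congrArg (Polynomial.aeval (z : M)) h2
    rw [map_add, map_mul, Polynomial.aeval_X, Polynomial.aeval_C, hq] at h3
    have h4 : algebraMap (Algebra.adjoin k {(y : M)}) M (q.coeff 0) = (q.coeff 0 : M) := rfl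
    rw [h4] at h3
    linear_combination h3
  obtain ⟨p, hp⟩ : ∃ p : k[X], Polynomial.aeval (y : M) p = (q.coeff 0 : M) := by
    exact (Algebra.adjoin_singleton_eq_range_aeval k (y : M)).le (q.coeff 0).2
  have hp0 : p ≠ 0 := by
    rintro rfl
    rw [map_zero] at hp
    exact hq0 (Subtype.ext hp.symm)
  have h5 : Polynomial.aeval y p = - (z * ⟨Polynomial.aeval (z : M) q.divX, hw⟩) := by
    apply Subtype.ext
    have h2 := Polynomial.aeval_algHom_apply A.val y p
    have h3 : ((Polynomial.aeval y p : A) : M) = Polynomial.aeval (y : M) p := h2.symm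
    rw [h3, hp, hr]
    rfl
  refine hy ⟨p, hp0, ?_⟩
  rw [Polynomial.aeval_algHom_apply, h5, map_neg, map_mul, hz, zero_mul, neg_zero]

theorem exists_emb (hM : IsFunctionField k M) {m : ℕ} (ξ : Fin m → M)
    (hgen : ∃ S : Set M, IntermediateField.adjoin k S = ⊤ ∧ (1 : M) ∈ Submodule.span k (Set.range ξ) ∧
      ∀ f ∈ S, f ∈ Submodule.span k (Set.range ξ))
    {K : Type u} [Field K] [Algebra k K] (a : Fin m → K) (hs : Sat (van k ξ) a) (j : Fin m) (ha : a j ≠ 0)
    (hnc : ∃ i, Transcendental k (a i / a j)) :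
    ξ j ≠ 0 ∧ ∃ ι : M →ₐ[k] K, ∀ i, ι (ξ i / ξ j) = a i / a j := by
  obtain ⟨hj, χ, hχ⟩ := exists_homK ξ a hs j ha
  refine ⟨hj, ?_⟩
  have hmem : ∀ i, ξ i / ξ j ∈ Algebra.adjoin k (Set.range (fun i => ξ i / ξ j)) := fun i =>
    Algebra.subset_adjoin ⟨i, rfl⟩
  have hinj : Injective χ := by
    obtain ⟨i, hi⟩ := hnc
    refine hom_inj hM _ χ ⟨ξ i / ξ j, hmem i⟩ ?_
    rw [hχ i (hmem i)]
    exact hi
  have htop : IntermediateField.adjoin k (Set.range (fun i => ξ i / ξ j)) = ⊤ := by
    obtain ⟨S, hS, h1, hf⟩ := hgen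
    have key : ∀ f ∈ Submodule.span k (Set.range ξ), f / ξ j ∈
        IntermediateField.adjoin k (Set.range (fun i => ξ i / ξ j)) := by
      intro f hf
      induction hf using Submodule.span_induction with
      | mem x hx =>
        obtain ⟨i, rfl⟩ := hx
        exact IntermediateField.subset_adjoin k _ ⟨i, rfl⟩
      | zero =>
        rw [zero_div]
        exact zero_mem _
      | add x y _ _ hx hy =>
        rw [add_div]
        exact add_mem hx hy
      | smul c x _ hx =>
        rw [Algebra.smul_def, mul_div_assoc]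
        exact mul_mem (IntermediateField.algebraMap_mem _ c) hx
    rw [eq_top_iff, ← hS, IntermediateField.adjoin_le_iff]
    intro f hfS
    have h2 := div_mem (key f (hf f hfS)) (key 1 h1)
    rwa [div_div_div_cancel_right₀ hj, div_one] at h2
  open IntermediateField.algebraAdjoinAdjoin in
  let L : IntermediateField.adjoin k (Set.range (fun i => ξ i / ξ j)) →ₐ[k] K :=
    IsFractionRing.liftAlgHom (A := Algebra.adjoin k (Set.range (fun i => ξ i / ξ j))) (g := χ) hinj
  let e : M →ₐ[k] IntermediateField.adjoin k (Set.range (fun i => ξ i / ξ j)) :=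
    ((IntermediateField.equivOfEq htop.symm).toAlgHom).comp
      (IntermediateField.topEquiv (F := k) (E := M)).symm.toAlgHom
  refine ⟨L.comp e, fun i => ?_⟩
  have h1 : e (ξ i / ξ j) = algebraMap (Algebra.adjoin k (Set.range (fun i => ξ i / ξ j)))
      (IntermediateField.adjoin k (Set.range (fun i => ξ i / ξ j))) ⟨ξ i / ξ j, hmem i⟩ := by
    apply Subtype.ext
    rfl
  rw [AlgHom.comp_apply, h1, ← hχ i (hmem i)]
  exact IsFractionRing.lift_algebraMap hinj _

end Pool.Agent.Helper70.NT
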