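import Mathlib
import Pool.Agent.Helper9.NS
import Pool.Agent.Helper28.NT.Defs3

/-!
# NT, block P3: the divisors of the linear forms
-/

set_option linter.unusedSectionVars false

namespace Pool.Agent.Helper70.NT

open VC _root_.VF Function
open Pool.Agent.Helper51.VN (Harm)

universe u

variable {k K : Type u} [Field k] [IsAlgClosed k] [CharZero k] [Field K] [Algebra k K]

/-- `a` and `l₀` are the order and the reduction of the vector `l` at all places. -/
def Red (l : Fin 3 → K) (a : Place k K →₀ ℤ) (l₀ : Place k K → Fin 3 → k) : Prop :=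
  ∀ P, l₀ P ≠ 0 ∧ ∃ t : K, t ≠ 0 ∧ ord P.ring t = a P ∧ ∀ c, IsRes P (t * l c) (l₀ P c)

theorem exists_red (hK : IsFunctionField k K) {l : Fin 3 → K} (hl : l ≠ 0) :
    ∃ (a : Place k K →₀ ℤ) (l₀ : Place k K → Fin 3 → k), Red l a l₀ := by
  classical
  have hmin : ∀ P : Place k K, ∃ c, l c ≠ 0 ∧ ∀ c', l c' ≠ 0 → ord P.ring (l c) ≤ ord P.ring (l c') := by
    intro P
    obtain ⟨c₁, hc₁⟩ := Function.ne_iff.mp hl
    obtain ⟨c, hc, h⟩ := Finset.exists_min_image (Finset.univ.filter fun c => l c ≠ 0) (fun c => ord P.ring (l c))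
      ⟨c₁, Finset.mem_filter.mpr ⟨Finset.mem_univ _, hc₁⟩⟩
    exact ⟨c, (Finset.mem_filter.mp hc).2, fun c' hc' => h c' (Finset.mem_filter.mpr ⟨Finset.mem_univ _, hc'⟩)⟩
  choose c hc hle using hmin
  have hres : ∀ (P : Place k K) (c' : Fin 3), ∃ r : k, IsRes P ((l (c P))⁻¹ * l c') r := by
    intro P c'
    apply exists_res hK
    by_cases h0 : l c' = 0
    · rw [h0, mul_zero]
      exact zero_mem _
    · rw [← FF.ord_nonneg_iff hK P (mul_ne_zero (inv_ne_zero (hc P)) h0),
        FF.ord_mul hK P (inv_ne_zero (hc P)) h0, FF.ord_inv hK P (hc P)]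
      have := hle P c' h0
      linarith
  choose r hr using hres
  refine ⟨Finsupp.onFinset (Finset.univ.biUnion fun c' => (FF.dv hK (l c')).support)
    (fun P => - ord P.ring (l (c P))) ?_, r, ?_⟩
  · intro P hP
    rw [Finset.mem_biUnion]
    refine ⟨c P, Finset.mem_univ _, ?_⟩
    rw [Finsupp.mem_support_iff, FF.dv_apply]
    exact fun h => hP (by rw [h, neg_zero])
  · intro P
    refine ⟨?_, (l (c P))⁻¹, inv_ne_zero (hc P), ?_, hr P⟩
    · intro h0
      have h1 := hr P (c P)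
      rw [h0, inv_mul_cancel₀ (hc P)] at h1
      exact one_ne_zero ((isRes_one (v := P)).unique h1)
    · rw [FF.ord_inv hK P (hc P)]
      rfl

/-- P3 -/
theorem p3 (hK : IsFunctionField k K) {l : Fin 3 → K} {a : Place k K →₀ ℤ} {l₀ : Place k K → Fin 3 → k}
    (hl : ∀ b : Fin 3 → k, b ≠ 0 → ∑ c, algebraMap k K (b c) * l c ≠ 0) (hred : Red l a l₀)
    (hsum : (a.sum fun _ m => m) ≤ 3) {μ : Place k K → k} (hμ : Harm hK μ) :
    ∃ C : k, ∀ b : Fin 3 → k, b ≠ 0 → ∀ P₁ P₂ P₃ : Place k K, P₁ ≠ P₂ → P₁ ≠ P₃ → P₂ ≠ P₃ →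
      ∑ c, b c * l₀ P₁ c = 0 → ∑ c, b c * l₀ P₂ c = 0 → ∑ c, b c * l₀ P₃ c = 0 → μ P₁ + μ P₂ + μ P₃ = C := by
  classical
  refine ⟨a.sum fun P m => (m : k) * μ P, fun b hb P₁ P₂ P₃ h12 h13 h23 e1 e2 e3 => ?_⟩
  obtain ⟨u, hu⟩ : ∃ u, u = ∑ c, algebraMap k K (b c) * l c := ⟨_, rfl⟩
  have hu0 : u ≠ 0 := by rw [hu]; exact hl b hb
  -- the divisor
  have key : ∀ P, ∃ t : K, t ≠ 0 ∧ ord P.ring t = a P ∧ IsRes P (t * u) (∑ c, b c * l₀ P c) := by
    intro P
    obtain ⟨-, t, ht0, ht, hr⟩ := hred P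
    refine ⟨t, ht0, ht, ?_⟩
    have e : t * u = ∑ c, algebraMap k K (b c) * (t * l c) := by
      rw [hu, Finset.mul_sum]
      refine Finset.sum_congr rfl fun c _ => ?_
      ring
    rw [e]
    exact IsRes.sum _ fun c _ => (isRes_const (b c)).mul (hr c)
  obtain ⟨E, hE⟩ : ∃ E : Place k K →₀ ℤ, E = FF.dv hK u + a := ⟨_, rfl⟩
  have hEP : ∀ P, E P = ord P.ring u + a P := fun P => by
    rw [hE, Finsupp.add_apply, FF.dv_apply]
  have hE0 : ∀ P, 0 ≤ E P := by
    intro P
    obtain ⟨t, ht0, ht, hr⟩ := key P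
    have h1 := (FF.ord_nonneg_iff hK P (mul_ne_zero ht0 hu0)).mpr hr.mem
    rw [FF.ord_mul hK P ht0 hu0, ht] at h1
    rw [hEP]
    linarith
  have hE1 : ∀ P, ∑ c, b c * l₀ P c = 0 → 1 ≤ E P := by
    intro P hP
    obtain ⟨t, ht0, ht, hr⟩ := key P
    rw [hP] at hr
    have h1 := (FF.ord_pos_iff hK P (mul_ne_zero ht0 hu0)).mpr (isRes_zero_iff.mp hr)
    rw [FF.ord_mul hK P ht0 hu0, ht] at h1
    rw [hEP]
    linarith
  have hdeg : FF.deg E ≤ 3 := by
    rw [hE, map_add, FF.deg_dv hK hu0, zero_add]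
    exact hsum
  obtain ⟨E', hE'⟩ : ∃ E' : Place k K →₀ ℤ, E' = E - (Finsupp.single P₁ 1 + Finsupp.single P₂ 1 + Finsupp.single P₃ 1) :=
    ⟨_, rfl⟩
  have hE'0 : ∀ P, 0 ≤ E' P := by
    intro P
    rw [hE', Finsupp.sub_apply, Finsupp.add_apply, Finsupp.add_apply, Finsupp.single_apply, Finsupp.single_apply,
      Finsupp.single_apply]
    have h0 := hE0 P
    by_cases i1 : P₁ = P
    · have h1 := hE1 P₁ e1
      have i2 : P₂ ≠ P := fun h => h12 (i1.trans h.symm)
      have i3 : P₃ ≠ P := fun h => h13 (i1.trans h.symm)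
      rw [i1] at h1
      rw [if_pos i1, if_neg i2, if_neg i3]
      linarith
    · by_cases i2 : P₂ = P
      · have h1 := hE1 P₂ e2
        have i3 : P₃ ≠ P := fun h => h23 (i2.trans h.symm)
        rw [i2] at h1
        rw [if_neg i1, if_pos i2, if_neg i3]
        linarith
      · by_cases i3 : P₃ = P
        · have h1 := hE1 P₃ e3
          rw [i3] at h1
          rw [if_neg i1, if_neg i2, if_pos i3]
          linarith
        · rw [if_neg i1, if_neg i2, if_neg i3]
          linarith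
  have hdeg' : FF.deg E' ≤ 0 := by
    rw [hE', map_sub, map_add, map_add, FF.deg_single, FF.deg_single, FF.deg_single]
    linarith
  have hE'z : E' = 0 := by
    ext P
    have h1 : FF.deg (E' - Finsupp.single P (E' P)) + E' P = FF.deg E' := by
      rw [map_sub, FF.deg_single]
      ring
    have h2 : 0 ≤ FF.deg (E' - Finsupp.single P (E' P)) := by
      apply FF.deg_nonneg
      intro P'
      rw [Finsupp.sub_apply, Finsupp.single_apply]
      by_cases h : P = P'
      · rw [if_pos h, h, sub_self]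
      · rw [if_neg h, sub_zero]
        exact hE'0 P'
    have h3 := hE'0 P
    rw [Finsupp.zero_apply]
    linarith
  have hEeq : FF.dv hK u + a = Finsupp.single P₁ 1 + Finsupp.single P₂ 1 + Finsupp.single P₃ 1 := by
    rw [← hE]
    rw [hE'] at hE'z
    exact sub_eq_zero.mp hE'z
  -- the sum
  obtain ⟨L, hL⟩ : ∃ L : (Place k K →₀ ℤ) →+ k, ∀ P m, L (Finsupp.single P m) = (m : k) * μ P :=
    ⟨Finsupp.liftAddHom fun P => (AddMonoidHom.mulRight (μ P)).comp (Int.castAddHom k), fun P m => by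
      rw [Finsupp.liftAddHom_apply_single]
      rfl⟩
  have hLs : ∀ D : Place k K →₀ ℤ, L D = D.sum fun P m => (m : k) * μ P := by
    intro D
    induction D using Finsupp.induction_linear with
    | zero => rw [map_zero, Finsupp.sum_zero_index]
    | add f g hf hg =>
      rw [map_add, hf, hg, Finsupp.sum_add_index' (fun P => by rw [Int.cast_zero, zero_mul]) fun P m m' => by
        rw [Int.cast_add, add_mul]]
    | single P m => rw [hL, Finsupp.sum_single_index (by rw [Int.cast_zero, zero_mul])]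
  have h0 : L (FF.dv hK u) = 0 := by
    rw [hLs]
    exact hμ u hu0
  have h1 := congrArg L hEeq
  rw [map_add, h0, zero_add, hLs, map_add, map_add, hL, hL, hL, Int.cast_one, one_mul, one_mul, one_mul] at h1
  exact h1.symm

end Pool.Agent.Helper70.NT
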